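import Mathlib
import Pool.Agent.H173H.Bip

/-!
# Strictness of inclusions among highly regular parameter sets

For every `n ≥ 2`, six of the seven inclusions are strict.
-/

namespace Pool.Agent.Results.MP_21018d_co.SixStrict

open Finset

/-- The vertices outside `C` adjacent to every vertex of `C`. -/
def sphereSet {V : Type} (X : SimpleGraph V) (C : Set V) : Set V :=
  {v | v ∉ C ∧ ∀ c ∈ C, X.Adj v c}

/-- The sphere `S_X(C)`. -/
def sphere {V : Type} (X : SimpleGraph V) (C : Set V) : SimpleGraph (sphereSet X C) :=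
  X.induce (sphereSet X C)

/-- `X` is `d`-regular; the empty graph is `0`-regular only. -/
def IsRegular (d : ℕ) {V : Type} (X : SimpleGraph V) : Prop :=
  (∀ v, (X.neighborSet v).ncard = d) ∧ (IsEmpty V → d = 0)

/-- `X` is `a`-regular. -/
def IsReg : (n : ℕ) → (Fin n → ℕ) → (V : Type) → SimpleGraph V → Prop
  | 0, _, _, _ => True
  | n + 1, a, _, X => IsRegular (a 0) X ∧ ∀ v, IsReg n (Fin.tail a) _ (sphere X {v})

/-- `X` is connected; `e` says whether the empty graph counts as connected. -/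
def IsConn (e : Prop) {V : Type} (X : SimpleGraph V) : Prop :=
  X.Preconnected ∧ (IsEmpty V → e)

/-- `X` is `a`-connected regular. -/
def IsConnReg (e : Prop) (n : ℕ) (a : Fin n → ℕ) (V : Type) (X : SimpleGraph V) : Prop :=
  IsReg n a V X ∧ ∀ C : Set V, X.IsClique C → C.ncard ≤ n - 1 → IsConn e (sphere X C)

/-- The edges joining `S` to its complement. -/
def boundary {V : Type} (X : SimpleGraph V) (S : Set V) : Set (Sym2 V) :=
  {b | b ∈ X.edgeSet ∧ ∃ u ∈ S, ∃ v ∉ S, b = s(u, v)}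

/-- The Cheeger constant. -/
noncomputable def cheeger {V : Type} (X : SimpleGraph V) : ℝ :=
  sInf {r | ∃ S : Set V, S.Nonempty ∧ S ≠ Set.univ ∧
    r = ((boundary X S).ncard : ℝ) / (min S.ncard Sᶜ.ncard : ℕ)}

/-- There are infinitely many pairwise non-isomorphic finite graphs with the property `P`. -/
def InfinitelyMany (P : (V : Type) → SimpleGraph V → Prop) : Prop :=
  ∃ (V : ℕ → Type) (X : ∀ i, SimpleGraph (V i)), (∀ i, Finite (V i)) ∧
    (∀ i j, i ≠ j → IsEmpty (X i ≃g X j)) ∧ ∀ i, P (V i) (X i)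

/-- The set `HR(n)`. -/
def HR (e : Prop) (n : ℕ) : Set (Fin n → ℕ) :=
  {a | ∃ (V : Type) (X : SimpleGraph V), Finite V ∧ IsConn e X ∧ IsReg n a V X}

/-- The set `HR_∞(n)`. -/
def HRinf (e : Prop) (n : ℕ) : Set (Fin n → ℕ) :=
  {a | InfinitelyMany fun V X => IsConn e X ∧ IsReg n a V X}

/-- The set `HR_exp(n)`. -/
def HRexp (n : ℕ) : Set (Fin n → ℕ) :=
  {a | ∃ ε : ℝ, 0 < ε ∧ InfinitelyMany fun V X => IsReg n a V X ∧ ε ≤ cheeger X}

/-- The set `HRC(n)`. -/
def HRC (e : Prop) (n : ℕ) : Set (Fin n → ℕ) :=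
  {a | ∃ (V : Type) (X : SimpleGraph V), Finite V ∧ IsConnReg e n a V X}

/-- The set `HRC_∞(n)`. -/
def HRCinf (e : Prop) (n : ℕ) : Set (Fin n → ℕ) :=
  {a | InfinitelyMany fun V X => IsConnReg e n a V X}

/-- The set `HRC_exp(n)`. -/
def HRCexp (e : Prop) (n : ℕ) : Set (Fin n → ℕ) :=
  {a | ∃ ε : ℝ, 0 < ε ∧ InfinitelyMany fun V X => IsConnReg e n a V X ∧ ε ≤ cheeger X}

/-! ## Boundaries -/

/-- The boundary as a set of ordered pairs. -/
def cutSet {V : Type} (X : SimpleGraph V) (S : Set V) : Set (V × V) :=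
  {p | X.Adj p.1 p.2 ∧ p.1 ∈ S ∧ p.2 ∉ S}

lemma boundary_ncard {V : Type} (X : SimpleGraph V) (S : Set V) :
    (boundary X S).ncard = (cutSet X S).ncard := by
  have h : boundary X S = (fun p : V × V => s(p.1, p.2)) '' cutSet X S := by
    ext b
    constructor
    · rintro ⟨hb, u, hu, v, hv, rfl⟩
      exact ⟨(u, v), ⟨X.mem_edgeSet.1 hb, hu, hv⟩, rfl⟩
    · rintro ⟨⟨u, v⟩, ⟨h1, h2, h3⟩, rfl⟩
      exact ⟨X.mem_edgeSet.2 h1, u, h2, v, h3, rfl⟩
  rw [h]
  refine Set.InjOn.ncard_image ?_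
  rintro ⟨a, b⟩ ⟨-, h1, h2⟩ ⟨c, d⟩ ⟨-, h3, h4⟩ heq
  simp only at heq h1 h2 h3 h4
  rw [Sym2.eq_iff] at heq
  rcases heq with ⟨rfl, rfl⟩ | ⟨rfl, rfl⟩
  · rfl
  · exact absurd h1 h4

lemma boundary_compl {V : Type} (X : SimpleGraph V) (S : Set V) :
    boundary X Sᶜ = boundary X S := by
  ext b
  constructor
  · rintro ⟨hb, u, hu, v, hv, rfl⟩
    exact ⟨hb, v, by simpa using hv, u, hu, Sym2.eq_swap⟩
  · rintro ⟨hb, u, hu, v, hv, rfl⟩
    exact ⟨hb, v, hv, u, by simpa using hu, Sym2.eq_swap⟩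

lemma cheeger_le {V : Type} (X : SimpleGraph V) (S : Set V) (h1 : S.Nonempty)
    (h2 : S ≠ Set.univ) :
    cheeger X ≤ ((boundary X S).ncard : ℝ) / (min S.ncard Sᶜ.ncard : ℕ) := by
  refine csInf_le ⟨0, ?_⟩ ⟨S, h1, h2, rfl⟩
  rintro r ⟨T, -, -, rfl⟩
  positivity

lemma le_cheeger {V : Type} [Fintype V] (X : SimpleGraph V) (ε : ℝ)
    (hcard : 2 ≤ Fintype.card V)
    (h : ∀ S : Finset V, 2 * S.card ≤ Fintype.card V →
      ε * S.card ≤ (Pool.Agent.H173H.cut X S).card) : ε ≤ cheeger X := by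
  classical
  have h' : ∀ S : Set V, 2 * S.ncard ≤ Fintype.card V → ε * S.ncard ≤ (boundary X S).ncard := by
    intro S hS
    have h1 : S.ncard = S.toFinset.card := Set.ncard_eq_toFinset_card' S
    have h2 : (boundary X S).ncard = (Pool.Agent.H173H.cut X S.toFinset).card := by
      rw [boundary_ncard, ← Set.ncard_coe_finset]
      congr 1
      ext p
      simp [cutSet, Pool.Agent.H173H.cut]
    rw [h2, h1]
    exact h _ (by omega)
  have hcc : ∀ S : Set V, S.ncard + Sᶜ.ncard = Fintype.card V := by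
    intro S
    rw [Set.ncard_add_ncard_compl, Nat.card_eq_fintype_card]
  refine le_csInf ?_ ?_
  · have : Nontrivial V := Fintype.one_lt_card_iff_nontrivial.1 (by omega)
    obtain ⟨u, v, huv⟩ := exists_pair_ne V
    refine ⟨_, {u}, Set.singleton_nonempty u, ?_, rfl⟩
    intro h1
    have : v ∈ ({u} : Set V) := by rw [h1]; exact Set.mem_univ v
    exact huv (Set.mem_singleton_iff.1 this).symm
  · rintro r ⟨S, hS1, hS2, rfl⟩
    have h1 : 0 < S.ncard := (Set.ncard_pos (Set.toFinite _)).2 hS1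
    have h2 : 0 < Sᶜ.ncard := by
      rw [Set.ncard_pos (Set.toFinite _), Set.nonempty_compl]
      exact hS2
    have h3 := hcc S
    have hpos : (0 : ℝ) < (min S.ncard Sᶜ.ncard : ℕ) := by
      exact_mod_cast lt_min h1 h2
    rw [le_div_iff₀ hpos]
    rcases le_total S.ncard Sᶜ.ncard with h4 | h4
    · rw [min_eq_left h4]
      exact h' S (by omega)
    · rw [min_eq_right h4, ← boundary_compl]
      exact h' Sᶜ (by omega)

lemma conn_of_cheeger {V : Type} (X : SimpleGraph V) (e : Prop) (ε : ℝ) (hε : 0 < ε)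
    (h : ε ≤ cheeger X) : IsConn e X := by
  constructor
  · intro u v
    by_contra hc
    have h1 := cheeger_le X {w | X.Reachable u w} ⟨u, SimpleGraph.Reachable.refl u⟩ (by
      intro h2
      apply hc
      have : v ∈ {w | X.Reachable u w} := by rw [h2]; exact Set.mem_univ v
      exact this)
    have h2 : boundary X {w | X.Reachable u w} = ∅ := by
      rw [Set.eq_empty_iff_forall_notMem]
      rintro b ⟨hb, x, hx, y, hy, rfl⟩
      exact hy (SimpleGraph.Reachable.trans hx (X.mem_edgeSet.1 hb).reachable)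
    rw [h2, Set.ncard_empty] at h1
    simp at h1
    linarith
  · intro hV
    exfalso
    have : cheeger X = 0 := by
      unfold cheeger
      convert Real.sInf_empty
      rw [Set.eq_empty_iff_forall_notMem]
      rintro r ⟨S, ⟨u, -⟩, -⟩
      exact hV.elim u
    linarith

/-! ## The inclusions -/

lemma conn_of_connReg {e : Prop} {n : ℕ} {a : Fin n → ℕ} {V : Type} {X : SimpleGraph V}
    (h : IsConnReg e n a V X) : IsConn e X := by
  have h1 := h.2 ∅ (by simp [SimpleGraph.IsClique]) (by simp)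
  have hmem : ∀ u, u ∈ sphereSet X ∅ := fun u => ⟨by simp, by simp⟩
  constructor
  · intro u v
    exact (h1.1 ⟨u, hmem u⟩ ⟨v, hmem v⟩).map (SimpleGraph.Embedding.induce _).toHom
  · intro hV
    exact h1.2 ⟨fun u => hV.elim u.1⟩

lemma InfinitelyMany.mono {P Q : (V : Type) → SimpleGraph V → Prop}
    (h : ∀ V X, P V X → Q V X) (hP : InfinitelyMany P) : InfinitelyMany Q := by
  obtain ⟨V, X, h1, h2, h3⟩ := hP
  exact ⟨V, X, h1, h2, fun i => h _ _ (h3 i)⟩

lemma HRC_sub (e : Prop) (n : ℕ) : HRC e n ⊆ HR e n := by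
  rintro a ⟨V, X, h1, h2⟩
  exact ⟨V, X, h1, conn_of_connReg h2, h2.1⟩

lemma HRCinf_sub (e : Prop) (n : ℕ) : HRCinf e n ⊆ HRinf e n := by
  intro a h
  exact InfinitelyMany.mono (P := fun V X => IsConnReg e n a V X)
    (Q := fun V X => IsConn e X ∧ IsReg n a V X) (fun V X h => ⟨conn_of_connReg h, h.1⟩) h

lemma HRCexp_sub (e : Prop) (n : ℕ) : HRCexp e n ⊆ HRexp n := by
  rintro a ⟨ε, hε, h⟩
  exact ⟨ε, hε, h.mono fun V X h => ⟨h.1.1, h.2⟩⟩

lemma HRCexp_sub' (e : Prop) (n : ℕ) : HRCexp e n ⊆ HRCinf e n := by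
  rintro a ⟨ε, hε, h⟩
  exact h.mono fun V X h => h.1

lemma HRexp_sub (e : Prop) (n : ℕ) : HRexp n ⊆ HRinf e n := by
  rintro a ⟨ε, hε, h⟩
  exact InfinitelyMany.mono (P := fun V X => IsReg n a V X ∧ ε ≤ cheeger X)
    (Q := fun V X => IsConn e X ∧ IsReg n a V X)
    (fun V X h => ⟨conn_of_cheeger X e ε hε h.2, h.1⟩) h

lemma HRinf_sub (e : Prop) (n : ℕ) : HRinf e n ⊆ HR e n := by
  rintro a ⟨V, X, h1, h2, h3⟩
  exact ⟨V 0, X 0, h1 0, h3 0⟩

lemma HRCinf_sub' (e : Prop) (n : ℕ) : HRCinf e n ⊆ HRC e n := by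
  rintro a ⟨V, X, h1, h2, h3⟩
  exact ⟨V 0, X 0, h1 0, h3 0⟩

/-! ## Triangle-free graphs -/

/-- The vector `(d, 0, …, 0)`. -/
def spike (n d : ℕ) : Fin n → ℕ := fun i => if (i : ℕ) = 0 then d else 0

lemma isReg_edgeless : ∀ (n : ℕ) (V : Type) (X : SimpleGraph V), (∀ u v, ¬ X.Adj u v) →
    IsReg n (fun _ => 0) V X
  | 0, _, _, _ => trivial
  | n + 1, V, X, h => by
    refine ⟨⟨fun v => ?_, fun _ => rfl⟩, fun v => ?_⟩
    · have : X.neighborSet v = ∅ := by
        rw [Set.eq_empty_iff_forall_notMem]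
        exact fun w hw => h v w hw
      rw [this, Set.ncard_empty]
    · exact isReg_edgeless n _ _ (fun u w huw => h _ _ huw)

lemma isReg_spike (m d : ℕ) (V : Type) [Nonempty V] (X : SimpleGraph V)
    (h1 : ∀ v, (X.neighborSet v).ncard = d)
    (h2 : ∀ u v w, X.Adj u v → X.Adj v w → X.Adj u w → False) :
    IsReg (m + 1) (spike (m + 1) d) V X := by
  refine ⟨⟨fun v => ?_, fun h => (not_isEmpty_of_nonempty V h).elim⟩, fun v => ?_⟩
  · rw [h1]
    simp [spike]
  · have : Fin.tail (spike (m + 1) d) = fun _ => 0 := by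
      funext i
      simp [Fin.tail, spike]
    rw [this]
    refine isReg_edgeless m _ _ ?_
    rintro ⟨u, hu1, hu2⟩ ⟨w, hw1, hw2⟩ huw
    exact h2 u w v huw (hw2 v rfl) (hu2 v rfl)

lemma spike_not_HRC (e : Prop) (m d : ℕ) (hd : 2 ≤ d) : spike (m + 2) d ∉ HRC e (m + 2) := by
  rintro ⟨V, X, hV, ⟨hr, hr2⟩, hc⟩
  have hne : Nonempty V := by
    by_contra h
    rw [not_nonempty_iff] at h
    have := hr.2 h
    simp [spike] at this
    omega
  obtain ⟨v⟩ := hne
  have h1 : (X.neighborSet v).ncard = d := by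
    rw [hr.1 v]
    simp [spike]
  have h2 : 1 < (X.neighborSet v).ncard := by omega
  obtain ⟨u, w, hu, hw, huw⟩ := (Set.one_lt_ncard_iff (Set.toFinite _)).1 h2
  have hC := (hc {v} (by simp [SimpleGraph.IsClique]) (by simp)).1
  have hmem : ∀ x, x ∈ X.neighborSet v → x ∈ sphereSet X {v} := by
    intro x hx
    have hx' : X.Adj v x := hx
    refine ⟨?_, ?_⟩
    · rw [Set.mem_singleton_iff]
      exact hx'.ne'
    · intro c hc'
      rw [Set.mem_singleton_iff.1 hc']
      exact hx'.symm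
  obtain ⟨p⟩ := hC ⟨u, hmem u hu⟩ ⟨w, hmem w hw⟩
  have h3 := (hr2 v).1.1 ⟨u, hmem u hu⟩
  have h4 : Fin.tail (spike (m + 2) d) 0 = 0 := by simp [Fin.tail, spike]
  rw [h4, Set.ncard_eq_zero (Set.toFinite _)] at h3
  cases p with
  | nil => exact huw rfl
  | cons hadj q =>
    have : _ ∈ (sphere X {v}).neighborSet ⟨u, hmem u hu⟩ := hadj
    rw [h3] at this
    exact this

/-! ## Complete graphs -/

lemma isReg_complete : ∀ (n m : ℕ) (V : Type) [Finite V] (X : SimpleGraph V),
    (∀ u v, u ≠ v → X.Adj u v) → Nat.card V = m + 1 → n ≤ m →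
    IsReg n (fun i => m - (i : ℕ)) V X
  | 0, _, _, _, _, _, _, _ => trivial
  | n + 1, m, V, _, X, h, hV, hn => by
    have hcompl : ∀ v : V, ({v}ᶜ : Set V).ncard = m := by
      intro v
      have := Set.ncard_add_ncard_compl ({v} : Set V)
      rw [Set.ncard_singleton, hV] at this
      omega
    refine ⟨⟨fun v => ?_, fun hE => ?_⟩, fun v => ?_⟩
    · have : X.neighborSet v = {v}ᶜ := by
        ext w
        rw [SimpleGraph.mem_neighborSet, Set.mem_compl_iff, Set.mem_singleton_iff]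
        exact ⟨fun hw => hw.ne', fun hw => h _ _ fun h' => hw h'.symm⟩
      rw [this, hcompl]
      simp
    · have : Nat.card V = 0 := by
        have := hE
        exact Nat.card_of_isEmpty
      omega
    · obtain ⟨m', rfl⟩ : ∃ m', m = m' + 1 := ⟨m - 1, by omega⟩
      have ht : Fin.tail (fun i : Fin (n + 1) => m' + 1 - (i : ℕ)) =
          fun i : Fin n => m' - (i : ℕ) := by
        funext i
        simp [Fin.tail]
      rw [ht]
      refine isReg_complete n m' _ _ ?_ ?_ (by omega)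
      · rintro ⟨u, hu⟩ ⟨w, hw⟩ huw
        exact h _ _ fun h' => huw (Subtype.ext h')
      · have hs : sphereSet X {v} = {v}ᶜ := by
          ext w
          constructor
          · intro hw
            exact hw.1
          · intro hw
            refine ⟨hw, ?_⟩
            intro c hc
            rw [Set.mem_singleton_iff.1 hc]
            exact h _ _ hw
        rw [Nat.card_coe_set_eq, hs, hcompl]

lemma complete_HRC (e : Prop) (n : ℕ) : (fun i : Fin n => n - (i : ℕ)) ∈ HRC e n := by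
  refine ⟨Fin (n + 1), ⊤, inferInstance, ?_, ?_⟩
  · refine isReg_complete n n _ _ (fun u v h => h) ?_ le_rfl
    simp
  · intro C _ hC
    constructor
    · intro u v
      by_cases huv : u = v
      · rw [huv]
      · refine SimpleGraph.Adj.reachable ?_
        intro h'
        exact huv (Subtype.ext h')
    · intro hE
      exfalso
      have h1 := Set.ncard_add_ncard_compl C
      rw [Nat.card_eq_fintype_card, Fintype.card_fin] at h1
      have h2 : 0 < Cᶜ.ncard := by omega
      obtain ⟨v, hv⟩ := (Set.ncard_pos (Set.toFinite _)).1 h2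
      refine hE.elim ⟨v, hv, ?_⟩
      intro c hc h'
      exact hv (h' ▸ hc)

lemma complete_of_reg {e : Prop} {m : ℕ} {V : Type} [Finite V] (X : SimpleGraph V)
    (hc : IsConn e X) (hr : IsReg (m + 2) (fun i => m + 2 - (i : ℕ)) V X) :
    Nat.card V = m + 3 ∧ ∀ u v, u ≠ v → X.Adj u v := by
  have hdeg : ∀ v, (X.neighborSet v).ncard = m + 2 := by
    intro v
    rw [hr.1.1 v]
    simp
  have hne : Nonempty V := by
    by_contra h
    rw [not_nonempty_iff] at h
    have := hr.1.2 h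
    simp at this
  have hlink : ∀ v u w, X.Adj v u → X.Adj v w → u ≠ w → X.Adj u w := by
    intro v u w hu hw huw
    have hmem : ∀ x, x ∈ sphereSet X {v} ↔ X.Adj v x := by
      intro x
      constructor
      · intro hx
        exact (hx.2 v rfl).symm
      · intro hx
        refine ⟨hx.ne', ?_⟩
        intro c hc'
        rw [Set.mem_singleton_iff.1 hc']
        exact hx.symm
    have h1 := (hr.2 v).1.1 ⟨u, (hmem u).2 hu⟩
    have h2 : Fin.tail (fun i : Fin (m + 2) => m + 2 - (i : ℕ)) 0 = m + 1 := by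
      simp [Fin.tail]
    rw [h2] at h1
    have h3 : (Subtype.val '' (sphere X {v}).neighborSet ⟨u, (hmem u).2 hu⟩).ncard = m + 1 := by
      rw [Set.ncard_image_of_injective _ Subtype.val_injective, h1]
    have h4 : (X.neighborSet v \ {u}).ncard = m + 1 := by
      rw [Set.ncard_sdiff_singleton_of_mem (show u ∈ X.neighborSet v from hu), hdeg]
      rfl
    have h5 : Subtype.val '' (sphere X {v}).neighborSet ⟨u, (hmem u).2 hu⟩ ⊆
        X.neighborSet v \ {u} := by
      rintro _ ⟨⟨x, hx⟩, hx2, rfl⟩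
      have hx3 : X.Adj u x := hx2
      exact ⟨(hmem x).1 hx, hx3.ne'⟩
    have h6 := Set.eq_of_subset_of_ncard_le h5 (by omega)
    have h7 : w ∈ X.neighborSet v \ {u} := ⟨hw, fun h => huw (Set.mem_singleton_iff.1 h).symm⟩
    rw [← h6] at h7
    obtain ⟨⟨x, hx⟩, hx2, hx3⟩ := h7
    have hx4 : x = w := hx3
    rw [← hx4]
    exact hx2
  obtain ⟨v⟩ := hne
  have hclosed : ∀ x y, (x = v ∨ X.Adj v x) → X.Adj x y → (y = v ∨ X.Adj v y) := by
    rintro x y (rfl | hx) hxy
    · exact Or.inr hxy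
    · have h1 : insert v (X.neighborSet v \ {x}) ⊆ X.neighborSet x := by
        intro z hz
        rcases Set.mem_insert_iff.1 hz with rfl | hz
        · exact hx.symm
        · exact hlink v x z hx hz.1 fun h => hz.2 (by rw [h]; rfl)
      have h2 : (insert v (X.neighborSet v \ {x})).ncard = m + 2 := by
        rw [Set.ncard_insert_of_notMem,
          Set.ncard_sdiff_singleton_of_mem (show x ∈ X.neighborSet v from hx), hdeg]
        · rfl
        · intro h
          exact X.loopless.irrefl v h.1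
      have h3 := Set.eq_of_subset_of_ncard_le h1 (by rw [h2, hdeg])
      have h4 : y ∈ X.neighborSet x := hxy
      rw [← h3] at h4
      rcases Set.mem_insert_iff.1 h4 with h4 | h4
      · exact Or.inl h4
      · exact Or.inr h4.1
  have hall : ∀ y, y = v ∨ X.Adj v y := by
    intro y
    obtain ⟨p⟩ := hc.1 v y
    have : ∀ (a b : V) (p : X.Walk a b), (a = v ∨ X.Adj v a) → (b = v ∨ X.Adj v b) := by
      intro a b p
      induction p with
      | nil => exact id
      | cons h _ ih => exact fun ha => ih (hclosed _ _ ha h)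
    exact this v y p (Or.inl rfl)
  constructor
  · have h1 : (insert v (X.neighborSet v)) = Set.univ := by
      rw [Set.eq_univ_iff_forall]
      intro y
      rcases hall y with h | h
      · exact Or.inl h
      · exact Or.inr h
    rw [← Set.ncard_univ, ← h1, Set.ncard_insert_of_notMem, hdeg]
    intro h
    exact X.loopless.irrefl v h
  · intro x y hxy
    rcases hall x with rfl | hx
    · rcases hall y with rfl | hy
      · exact absurd rfl hxy
      · exact hy
    · rcases hall y with rfl | hy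
      · exact hx.symm
      · exact hlink v x y hx hy hxy

lemma complete_not_HRinf (e : Prop) (m : ℕ) :
    (fun i : Fin (m + 2) => m + 2 - (i : ℕ)) ∉ HRinf e (m + 2) := by
  rintro ⟨V, X, h1, h2, h3⟩
  have := h1 0
  have := h1 1
  have a0 := complete_of_reg (X 0) (h3 0).1 (h3 0).2
  have a1 := complete_of_reg (X 1) (h3 1).1 (h3 1).2
  obtain ⟨f⟩ : Nonempty (V 0 ≃ V 1) := by
    rw [← Finite.card_eq, a0.1, a1.1]
  refine (h2 0 1 (by norm_num)).elim ⟨f, ?_⟩
  intro u v
  constructor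
  · intro h
    exact a0.2 u v fun h' => h.ne (by rw [h'])
  · intro h
    exact a1.2 _ _ fun h' => h.ne (f.injective h')

/-! ## Cycles -/

lemma cycle_reg (k : ℕ) (v : Fin (k + 4)) :
    ((SimpleGraph.cycleGraph (k + 4)).neighborSet v).ncard = 2 := by
  rw [← Nat.card_coe_set_eq, Nat.card_eq_fintype_card, SimpleGraph.card_neighborSet_eq_degree]
  exact SimpleGraph.cycleGraph_degree_three_le

lemma cycle_triangle (k : ℕ) (u v w : Fin (k + 4))
    (h1 : (SimpleGraph.cycleGraph (k + 4)).Adj u v)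
    (h2 : (SimpleGraph.cycleGraph (k + 4)).Adj v w)
    (h3 : (SimpleGraph.cycleGraph (k + 4)).Adj u w) : False := by
  rw [SimpleGraph.cycleGraph_adj] at h1 h2 h3
  have e1 : (u - v) + (v - w) = u - w := by abel
  have n1 : (1 : Fin (k + 4)) ≠ 0 := by simp
  have n3 : (1 : Fin (k + 4)) + 1 + 1 ≠ 0 := by
    intro h
    have h1 := congrArg Fin.val h
    rw [Fin.val_add, Fin.val_add, Fin.val_one, Nat.mod_eq_of_lt (show 1 + 1 < k + 4 by omega),
      Nat.mod_eq_of_lt (show 1 + 1 + 1 < k + 4 by omega)] at h1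
    simp at h1
  have s1 : u - v = 1 ∨ u - v = -1 := by
    rcases h1 with h | h
    · exact Or.inl h
    · exact Or.inr (by rw [← neg_sub, h])
  have s2 : v - w = 1 ∨ v - w = -1 := by
    rcases h2 with h | h
    · exact Or.inl h
    · exact Or.inr (by rw [← neg_sub, h])
  have s3 : u - w = 1 ∨ u - w = -1 := by
    rcases h3 with h | h
    · exact Or.inl h
    · exact Or.inr (by rw [← neg_sub, h])
  rcases s1 with s1 | s1 <;> rcases s2 with s2 | s2 <;> rcases s3 with s3 | s3 <;>
    rw [s1, s2, s3] at e1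
  · exact n1 (by simpa using e1)
  · exact n3 (by rw [e1]; simp)
  · exact n1 (by simpa using e1.symm)
  · exact n1 (by simpa using e1.symm)
  · exact n1 (by simpa using e1.symm)
  · exact n1 (by simpa using e1.symm)
  · have key : ∀ t : Fin (k + 4), (-t + -t) + t + t = 0 := fun t => by abel
    have h := key 1
    rw [e1] at h
    exact n3 h
  · exact n1 (by simpa using e1)

/-! ## Growing sets in two-regular graphs -/

lemma grow {V : Type} [Finite V] [Nonempty V] (X : SimpleGraph V) (hc : X.Preconnected)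
    (hd : ∀ v, (X.neighborSet v).ncard = 2) (s : ℕ) (hs : 1 ≤ s) :
    s ≤ Nat.card V → ∃ A : Set V, A.ncard = s ∧ (cutSet X A).ncard ≤ 2 := by
  induction s, hs using Nat.le_induction with
  | base =>
    intro _
    obtain ⟨v⟩ := ‹Nonempty V›
    refine ⟨{v}, Set.ncard_singleton v, ?_⟩
    rw [← hd v]
    refine (Set.ncard_le_ncard (t := (fun w => (v, w)) '' X.neighborSet v) ?_
      (Set.toFinite _)).trans (Set.ncard_image_le (Set.toFinite _))
    rintro ⟨x, y⟩ ⟨h1, h2, h3⟩
    simp only [Set.mem_singleton_iff] at h2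
    subst h2
    exact ⟨y, h1, rfl⟩
  | succ s hs ih =>
    intro hV
    obtain ⟨A, hA, hcut⟩ := ih (by omega)
    have h1 : A.Nonempty := (Set.ncard_pos (Set.toFinite _)).1 (by omega)
    have h2 : ∃ z, z ∉ A := by
      by_contra hcon
      push Not at hcon
      have : A = Set.univ := Set.eq_univ_iff_forall.2 hcon
      rw [this, Set.ncard_univ] at hA
      omega
    obtain ⟨x, hx⟩ := h1
    obtain ⟨z, hz⟩ := h2
    obtain ⟨p⟩ := hc x z
    obtain ⟨d, -, hd1, hd2⟩ := p.exists_boundary_dart A hx hz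
    obtain ⟨⟨u, w⟩, huw⟩ := d
    simp only at hd1 hd2
    have huw' : X.Adj u w := huw
    refine ⟨insert w A, by rw [Set.ncard_insert_of_notMem hd2, hA], ?_⟩
    have hsub : cutSet X (insert w A) ⊆
        (cutSet X A \ {(u, w)}) ∪ ((fun z => (w, z)) '' (X.neighborSet w \ {u})) := by
      rintro ⟨a, b⟩ ⟨g1, g2, g3⟩
      simp only [Set.mem_insert_iff, not_or] at g1 g2 g3
      rcases g2 with rfl | g2
      · right
        refine ⟨b, ⟨g1, ?_⟩, rfl⟩
        rintro h
        rw [Set.mem_singleton_iff] at h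
        rw [h] at g3
        exact g3.2 hd1
      · left
        refine ⟨⟨g1, g2, g3.2⟩, ?_⟩
        intro h
        rw [Set.mem_singleton_iff, Prod.mk.injEq] at h
        exact g3.1 h.2
    have k1 : (cutSet X A \ {(u, w)}).ncard = (cutSet X A).ncard - 1 :=
      Set.ncard_sdiff_singleton_of_mem ⟨huw', hd1, hd2⟩
    have k2 : (X.neighborSet w \ {u}).ncard = 1 := by
      rw [Set.ncard_sdiff_singleton_of_mem (show u ∈ X.neighborSet w from huw'.symm), hd]
    have k3 := Set.ncard_le_ncard hsub (Set.toFinite _)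
    have k4 := Set.ncard_union_le (cutSet X A \ {(u, w)})
      ((fun z => (w, z)) '' (X.neighborSet w \ {u}))
    have k5 := Set.ncard_image_le (f := fun z => (w, z)) (Set.toFinite (X.neighborSet w \ {u}))
    have k6 : 0 < (cutSet X A).ncard :=
      (Set.ncard_pos (Set.toFinite _)).2 ⟨(u, w), huw', hd1, hd2⟩
    omega

/-- A sequence of pairwise non-isomorphic finite graphs has unbounded orders. -/
lemma unbounded (V : ℕ → Type) (X : ∀ i, SimpleGraph (V i)) (h1 : ∀ i, Finite (V i))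
    (h2 : ∀ i j, i ≠ j → IsEmpty (X i ≃g X j)) (N : ℕ) : ∃ i, N < Nat.card (V i) := by
  by_contra hcon
  push Not at hcon
  have f : ∀ i, V i ≃ Fin (Nat.card (V i)) := fun i => by
    have := h1 i
    exact Finite.equivFin (V i)
  let F : ℕ → (Σ m : Fin (N + 1), SimpleGraph (Fin m)) := fun i =>
    ⟨⟨Nat.card (V i), Nat.lt_succ_of_le (hcon i)⟩, (X i).comap (f i).symm⟩
  obtain ⟨i, j, hij, hF⟩ := Finite.exists_ne_map_eq_of_infinite F
  have key : ∀ p q : (Σ m : Fin (N + 1), SimpleGraph (Fin m)), p = q → Nonempty (p.2 ≃g q.2) := by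
    rintro p _ rfl
    exact ⟨SimpleGraph.Iso.refl⟩
  obtain ⟨g⟩ := key _ _ hF
  have gi : (X i).comap (f i).symm ≃g X i := SimpleGraph.Iso.comap (f i).symm (X i)
  have gj : (X j).comap (f j).symm ≃g X j := SimpleGraph.Iso.comap (f j).symm (X j)
  exact (h2 i j hij).elim ((gi.symm.trans g).trans gj)

lemma spike_not_HRexp (m : ℕ) : spike (m + 1) 2 ∉ HRexp (m + 1) := by
  rintro ⟨ε, hε, V, X, h1, h2, h3⟩
  set s : ℕ := ⌈2 / ε⌉₊ + 1 with hs
  obtain ⟨i, hi⟩ := unbounded V X h1 h2 (2 * s)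
  have := h1 i
  have hne : Nonempty (V i) := by
    by_contra h
    rw [not_nonempty_iff] at h
    have := Nat.card_of_isEmpty (α := V i)
    omega
  have hc : IsConn True (X i) := conn_of_cheeger (X i) True ε hε (h3 i).2
  obtain ⟨A, hA, hcut⟩ := grow (X i) hc.1 (fun v => by
    rw [(h3 i).1.1.1 v]
    simp [spike]) s (by omega) (by omega)
  have hcc := Set.ncard_add_ncard_compl A
  have hmin : min A.ncard Aᶜ.ncard = s := by
    rw [hA]
    apply min_eq_left
    omega
  have hA1 : A.Nonempty := (Set.ncard_pos (Set.toFinite _)).1 (by omega)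
  have hA2 : A ≠ Set.univ := by
    intro h
    rw [h, Set.ncard_univ] at hA
    omega
  have h4 := cheeger_le (X i) A hA1 hA2
  rw [hmin, boundary_ncard] at h4
  have h5 : ((cutSet (X i) A).ncard : ℝ) ≤ 2 := by exact_mod_cast hcut
  have hspos : (0 : ℝ) < s := by
    have : 0 < s := by omega
    exact_mod_cast this
  have h6 : (2 : ℝ) / ε < s := by
    have := Nat.le_ceil (2 / ε)
    rw [hs]
    push_cast
    linarith
  have h7 : ((cutSet (X i) A).ncard : ℝ) / s ≤ 2 / s := by
    gcongr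
  have h8 : 2 / (s : ℝ) < ε := by
    rw [div_lt_iff₀ hspos]
    rw [div_lt_iff₀ hε] at h6
    linarith
  have := (h3 i).2
  linarith

lemma spike_HRinf (e : Prop) (m : ℕ) : spike (m + 1) 2 ∈ HRinf e (m + 1) := by
  refine ⟨fun k => Fin (k + 4), fun k => SimpleGraph.cycleGraph (k + 4),
    fun _ => inferInstance, ?_, ?_⟩
  · intro i j hij
    refine ⟨fun f => hij ?_⟩
    have := Fintype.card_congr f.toEquiv
    simp at this
    exact this
  · intro k
    refine ⟨⟨SimpleGraph.cycleGraph_connected.preconnected,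
      fun h => (not_isEmpty_of_nonempty _ h).elim⟩, ?_⟩
    exact isReg_spike m 2 _ _ (cycle_reg k) (cycle_triangle k)

lemma spike_HRexp (m : ℕ) : spike (m + 1) 6 ∈ HRexp (m + 1) := by
  refine ⟨1 / 1067520, by norm_num, fun k => Pool.Agent.H173H.Vtx (k + 1),
    fun k => Pool.Agent.H173H.Gb (k + 1), fun _ => inferInstance, ?_, ?_⟩
  · intro i j hij
    refine ⟨fun f => hij ?_⟩
    have := Fintype.card_congr f.toEquiv
    rw [Pool.Agent.H173H.card_Vtx, Pool.Agent.H173H.card_Vtx] at this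
    have h2 : (i + 1) ^ 2 = (j + 1) ^ 2 := by omega
    have h3 := Nat.pow_left_injective (n := 2) (by norm_num) h2
    omega
  · intro k
    refine ⟨isReg_spike m 6 _ _ (Pool.Agent.H173H.Gb_degree _)
      (Pool.Agent.H173H.Gb_triangle _), ?_⟩
    refine le_cheeger _ _ ?_ (Pool.Agent.H173H.Gb_expansion (k + 1))
    rw [Pool.Agent.H173H.card_Vtx]
    nlinarith [Nat.zero_le k]

/-- **Main theorem.**  For every `n ≥ 2`, and whether or not the empty graph counts as connected,
six of the seven inclusions are strict: all but `HRC_exp(n) ⊆ HRC_∞(n)`. -/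
theorem result (e : Prop) (n : ℕ) (hn : 2 ≤ n) :
    HRCexp e n ⊆ HRCinf e n ∧ HRCinf e n ⊂ HRC e n ∧
    HRexp n ⊂ HRinf e n ∧ HRinf e n ⊂ HR e n ∧
    HRCexp e n ⊂ HRexp n ∧ HRCinf e n ⊂ HRinf e n ∧ HRC e n ⊂ HR e n := by
  obtain ⟨m, rfl⟩ : ∃ m, n = m + 2 := ⟨n - 2, by omega⟩
  have key : ∀ {A B : Set (Fin (m + 2) → ℕ)} (a : Fin (m + 2) → ℕ), A ⊆ B → a ∈ B → a ∉ A →
      A ⊂ B := fun a h1 h2 h3 => ⟨h1, fun h => h3 (h h2)⟩
  have h6 := spike_HRexp (m + 1)
  have h6' := spike_not_HRC e m 6 (by norm_num)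
  refine ⟨HRCexp_sub' e _, ?_, ?_, ?_, ?_, ?_, ?_⟩
  · exact key _ (HRCinf_sub' e _) (complete_HRC e (m + 2))
      fun h => complete_not_HRinf e m (HRCinf_sub e _ h)
  · exact key _ (HRexp_sub e _) (spike_HRinf e (m + 1)) (spike_not_HRexp (m + 1))
  · exact key _ (HRinf_sub e _) (HRC_sub e _ (complete_HRC e (m + 2)))
      (complete_not_HRinf e m)
  · exact key _ (HRCexp_sub e _) h6
      fun h => h6' (HRCinf_sub' e _ (HRCexp_sub' e _ h))
  · exact key _ (HRCinf_sub e _) (HRexp_sub e _ h6) fun h => h6' (HRCinf_sub' e _ h)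
  · exact key _ (HRC_sub e _) (HRinf_sub e _ (HRexp_sub e _ h6)) h6'

end Pool.Agent.Results.MP_21018d_co.SixStrict
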