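import Mathlib

/-!
# Highly regular parameter sets: five of the seven inclusions are strict for every `n ≥ 2`
-/

set_option autoImplicit false

namespace Pool.Agent.Results.MP_21018d_co.StrictInclusions

/-- A finite graph. -/
structure FinGraph where
  /-- the vertex set -/
  V : Type
  /-- it is finite -/
  fin : Finite V
  /-- the graph -/
  G : SimpleGraph V

/-- The vertices outside `C` that are adjacent to every vertex of `C`. -/
def sphereSet {V : Type} (G : SimpleGraph V) (C : Set V) : Set V :=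
  {w | w ∉ C ∧ ∀ c ∈ C, G.Adj c w}

/-- The sphere of `C`: the subgraph induced on the vertices outside `C` that are adjacent to every
vertex of `C`. -/
def Sphere {V : Type} (G : SimpleGraph V) (C : Set V) : SimpleGraph (sphereSet G C) :=
  G.induce (sphereSet G C)

/-- `d`-regular; the empty graph is `0`-regular and not `d`-regular for `d ≥ 1`. -/
def IsReg {V : Type} (G : SimpleGraph V) (d : ℕ) : Prop :=
  (∀ v, (G.neighborSet v).ncard = d) ∧ (IsEmpty V → d = 0)

/-- `a`-regular, for a tuple `a` (a list of natural numbers): regular of degree the first entry, and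
the sphere of every vertex is regular for the remaining entries (no condition if none remain). -/
def AReg : List ℕ → ∀ {V : Type}, SimpleGraph V → Prop
  | [], _, _ => True
  | d :: l, _, G => IsReg G d ∧ ∀ v, AReg l (Sphere G {v})

/-- `a`-connected regular, for a tuple `a` of length `n`: `a`-regular, and the sphere of every clique
with at most `n - 1` vertices (also of the empty clique) is connected. -/
def ACReg (a : List ℕ) {V : Type} (G : SimpleGraph V) : Prop :=
  AReg a G ∧ ∀ C : Set V, G.IsClique C → C.ncard < a.length → (Sphere G C).Connected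

/-- The edges joining `S` to its complement, as ordered pairs with first entry in `S`. -/
def bd {V : Type} (G : SimpleGraph V) (S : Set V) : Set (V × V) :=
  {e | e.1 ∈ S ∧ e.2 ∉ S ∧ G.Adj e.1 e.2}

/-- The Cheeger constant of `G` is at least `ε`. -/
def CheegerGE {V : Type} (G : SimpleGraph V) (ε : ℝ) : Prop :=
  ∀ S : Set V, S.Nonempty → Sᶜ.Nonempty →
    ε * min (S.ncard : ℝ) (Sᶜ.ncard : ℝ) ≤ ((bd G S).ncard : ℝ)

/-- The graphs of the sequence are pairwise non-isomorphic. -/
def NonIso (X : ℕ → FinGraph) : Prop :=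
  ∀ i j, i ≠ j → IsEmpty ((X i).G ≃g (X j).G)

/-- `HR(n)`: some connected `a`-regular graph exists. -/
def HR (n : ℕ) : Set (List ℕ) :=
  {a | a.length = n ∧ ∃ X : FinGraph, X.G.Connected ∧ AReg a X.G}

/-- `HR_∞(n)`: infinitely many pairwise non-isomorphic connected `a`-regular graphs exist. -/
def HRinf (n : ℕ) : Set (List ℕ) :=
  {a | a.length = n ∧ ∃ X : ℕ → FinGraph, NonIso X ∧ ∀ i, (X i).G.Connected ∧ AReg a (X i).G}

/-- `HR_exp(n)`: an infinite family of `a`-regular expanders exists. -/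
def HRexp (n : ℕ) : Set (List ℕ) :=
  {a | a.length = n ∧ ∃ X : ℕ → FinGraph, NonIso X ∧ ∃ ε : ℝ, 0 < ε ∧
    ∀ i, (X i).G.Connected ∧ AReg a (X i).G ∧ CheegerGE (X i).G ε}

/-- `HRC(n)`: some connected `a`-connected regular graph exists. -/
def HRC (n : ℕ) : Set (List ℕ) :=
  {a | a.length = n ∧ ∃ X : FinGraph, X.G.Connected ∧ ACReg a X.G}

/-- `HRC_∞(n)`: infinitely many pairwise non-isomorphic `a`-connected regular graphs exist. -/
def HRCinf (n : ℕ) : Set (List ℕ) :=
  {a | a.length = n ∧ ∃ X : ℕ → FinGraph, NonIso X ∧ ∀ i, (X i).G.Connected ∧ ACReg a (X i).G}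

/-- `HRC_exp(n)`: an infinite family of `a`-connected regular expanders exists. -/
def HRCexp (n : ℕ) : Set (List ℕ) :=
  {a | a.length = n ∧ ∃ X : ℕ → FinGraph, NonIso X ∧ ∃ ε : ℝ, 0 < ε ∧
    ∀ i, (X i).G.Connected ∧ ACReg a (X i).G ∧ CheegerGE (X i).G ε}

/-! ### Spheres of single vertices -/

theorem sphereSet_singleton {V : Type} (G : SimpleGraph V) (v : V) :
    sphereSet G {v} = G.neighborSet v := by
  ext w
  simp only [sphereSet, Set.mem_setOf_eq, Set.mem_singleton_iff, forall_eq,
    SimpleGraph.mem_neighborSet]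
  constructor
  · rintro ⟨_, h⟩
    exact h
  · intro h
    exact ⟨fun e => G.ne_of_adj h e.symm, h⟩

/-! ### Complete graphs -/

/-- The tuple `(k, k-1, …, 1)`. -/
def desc : ℕ → List ℕ
  | 0 => []
  | k + 1 => (k + 1) :: desc k

theorem desc_length (k : ℕ) : (desc k).length = k := by
  induction k with
  | zero => rfl
  | succ k ih => simp [desc, ih]

theorem induce_top' {V : Type} (s : Set V) : (⊤ : SimpleGraph V).induce s = ⊤ := by
  ext a b
  simp [Subtype.ext_iff]

theorem areg_top (k : ℕ) : ∀ {V : Type}, Finite V → Nat.card V = k + 1 →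
    AReg (desc k) (⊤ : SimpleGraph V) := by
  induction k with
  | zero => intro V _ _; trivial
  | succ k ih =>
    intro V hV hc
    have hdeg : ∀ v : V, ((⊤ : SimpleGraph V).neighborSet v).ncard = k + 1 := by
      intro v
      have h1 : (⊤ : SimpleGraph V).neighborSet v = {v}ᶜ := by
        ext w
        simp [SimpleGraph.mem_neighborSet, eq_comm]
      rw [h1, Set.ncard_compl, hc, Set.ncard_singleton]
      omega
    refine ⟨⟨hdeg, fun h => ?_⟩, fun v => ?_⟩
    · exfalso
      have : Nat.card V = 0 := Nat.card_of_isEmpty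
      omega
    · have h2 : Sphere (⊤ : SimpleGraph V) {v} = ⊤ := induce_top' _
      rw [h2]
      apply ih
      · exact Subtype.finite
      · have h3 := hdeg v
        rw [← sphereSet_singleton] at h3
        exact h3

/-- In a connected graph in which adjacency is locally transitive, all vertices are adjacent. -/
theorem adj_of_reachable {V : Type} (G : SimpleGraph V)
    (h : ∀ v u w, G.Adj v u → G.Adj v w → u ≠ w → G.Adj u w) {x y : V} (p : G.Walk x y) :
    x ≠ y → G.Adj x y := by
  induction p with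
  | nil => intro hne; exact absurd rfl hne
  | @cons a b c hab p ih =>
    intro hne
    by_cases hbc : b = c
    · rw [← hbc]; exact hab
    · exact h b a c hab.symm (ih hbc) hne

theorem local_clique {V : Type} [Finite V] (G : SimpleGraph V) (k : ℕ)
    (h : AReg (desc (k + 1)) G) :
    ∀ v u w, G.Adj v u → G.Adj v w → u ≠ w → G.Adj u w := by
  intro v u w hu hw hne
  rcases k with _ | k
  · exfalso
    have h1 := h.1.1 v
    obtain ⟨z, hz⟩ := Set.ncard_eq_one.1 h1
    have e1 : u ∈ G.neighborSet v := hu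
    have e2 : w ∈ G.neighborSet v := hw
    rw [hz] at e1 e2
    exact hne (e1.trans e2.symm)
  · have h1 := h.1.1 v
    have h2 := (h.2 v).1.1
    have hus : u ∈ sphereSet G {v} := by rw [sphereSet_singleton]; exact hu
    have hws : w ∈ sphereSet G {v} := by rw [sphereSet_singleton]; exact hw
    have h3 := h2 ⟨u, hus⟩
    have hcard : Nat.card (sphereSet G {v}) = k + 1 + 1 := by
      rw [sphereSet_singleton]; exact h1
    have hsub : (Sphere G {v}).neighborSet ⟨u, hus⟩ ⊆ {(⟨u, hus⟩ : sphereSet G {v})}ᶜ := by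
      intro z hz
      simp only [Set.mem_compl_iff, Set.mem_singleton_iff]
      intro e
      exact (Sphere G {v}).ne_of_adj hz e.symm
    have heq : (Sphere G {v}).neighborSet ⟨u, hus⟩ = {(⟨u, hus⟩ : sphereSet G {v})}ᶜ := by
      apply Set.eq_of_subset_of_ncard_le hsub
      rw [h3, Set.ncard_compl, hcard, Set.ncard_singleton]
      omega
    have : (⟨w, hws⟩ : sphereSet G {v}) ∈ (Sphere G {v}).neighborSet ⟨u, hus⟩ := by
      rw [heq]
      simp only [Set.mem_compl_iff, Set.mem_singleton_iff, Subtype.mk.injEq]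
      exact fun e => hne e.symm
    exact this

theorem eq_top_of_desc {V : Type} [Finite V] (G : SimpleGraph V) (k : ℕ)
    (hc : G.Connected) (h : AReg (desc (k + 1)) G) : G = ⊤ ∧ Nat.card V = k + 2 := by
  have hl := local_clique G k h
  have htop : G = ⊤ := by
    ext x y
    constructor
    · intro hxy; exact G.ne_of_adj hxy
    · intro hxy
      obtain ⟨p⟩ := hc.preconnected x y
      exact adj_of_reachable G hl p hxy
  refine ⟨htop, ?_⟩
  obtain ⟨v⟩ := hc.nonempty
  have h1 := h.1.1 v
  have h2 : G.neighborSet v = {v}ᶜ := by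
    rw [htop]
    ext w
    simp [SimpleGraph.mem_neighborSet, eq_comm]
  rw [h2, Set.ncard_compl, Set.ncard_singleton] at h1
  omega

theorem desc_not_inf (k : ℕ) : desc (k + 1) ∉ HRinf (k + 1) := by
  rintro ⟨_, X, hX, h⟩
  haveI := (X 0).fin
  haveI := (X 1).fin
  obtain ⟨t0, c0⟩ := eq_top_of_desc (X 0).G k (h 0).1 (h 0).2
  obtain ⟨t1, c1⟩ := eq_top_of_desc (X 1).G k (h 1).1 (h 1).2
  have he : Nonempty ((X 0).V ≃ (X 1).V) := by
    apply Finite.card_eq.1
    rw [c0, c1]
  obtain ⟨e⟩ := he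
  refine (hX 0 1 (by norm_num)).false ⟨e, ?_⟩
  intro a b
  rw [t0, t1]
  simp

theorem top_connected_sphere {V : Type} [Finite V] (C : Set V) (h : C.ncard < Nat.card V) :
    (Sphere (⊤ : SimpleGraph V) C).Connected := by
  have h2 : Sphere (⊤ : SimpleGraph V) C = ⊤ := induce_top' _
  rw [h2]
  have hne : Nonempty (sphereSet (⊤ : SimpleGraph V) C) := by
    have : ∃ x, x ∉ C := by
      by_contra hcon
      push_neg at hcon
      have : C = Set.univ := Set.eq_univ_of_forall hcon
      rw [this, Set.ncard_univ] at h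
      omega
    obtain ⟨x, hx⟩ := this
    refine ⟨⟨x, hx, fun c hc => ?_⟩⟩
    intro e
    rw [e] at hc
    exact hx hc
  exact SimpleGraph.connected_top

theorem desc_mem_HRC (k : ℕ) : desc (k + 1) ∈ HRC (k + 1) := by
  refine ⟨desc_length _, ⟨Fin (k + 2), inferInstance, ⊤⟩, SimpleGraph.connected_top, ?_, ?_⟩
  · exact areg_top (k + 1) inferInstance (by simp)
  · intro C _ hC
    apply top_connected_sphere
    rw [desc_length] at hC
    simp only [Nat.card_eq_fintype_card, Fintype.card_fin]
    omega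

/-! ### Cycles -/

/-- The cycle on `ZMod m`. -/
def cyc (m : ℕ) : SimpleGraph (ZMod m) where
  Adj x y := x ≠ y ∧ (y = x + 1 ∨ x = y + 1)
  symm := ⟨fun _ _ h => ⟨h.1.symm, h.2.symm⟩⟩
  loopless := ⟨fun x h => h.1 rfl⟩

theorem areg_zero (k : ℕ) : ∀ {V : Type} (G : SimpleGraph V), (∀ a b, ¬ G.Adj a b) →
    AReg (List.replicate k 0) G := by
  induction k with
  | zero => intro V G _; trivial
  | succ k ih =>
    intro V G h
    refine ⟨⟨fun v => ?_, fun _ => rfl⟩, fun v => ih _ ?_⟩
    · have : G.neighborSet v = ∅ := by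
        ext w
        simp [SimpleGraph.mem_neighborSet, h v w]
      rw [this, Set.ncard_empty]
    · intro a b hab
      exact h a.1 b.1 hab

/-- The tuple `(2, 0, …, 0)` of length `n` (for `n ≥ 1`). -/
def two0 (n : ℕ) : List ℕ := 2 :: List.replicate (n - 1) 0

theorem two0_length (n : ℕ) (hn : 1 ≤ n) : (two0 n).length = n := by
  simp only [two0, List.length_cons, List.length_replicate]
  omega

theorem cast_ne (m : ℕ) (k : ℕ) (h0 : 0 < k) (h : k < m) : (k : ZMod m) ≠ 0 := by
  intro e
  rw [ZMod.natCast_eq_zero_iff] at e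
  exact absurd (Nat.le_of_dvd h0 e) (by omega)

theorem cyc_areg (m : ℕ) (hm : 4 ≤ m) (n : ℕ) : AReg (two0 n) (cyc m) := by
  have h1 : (1 : ZMod m) ≠ 0 := by simpa using cast_ne m 1 (by norm_num) (by omega)
  have h2 : (2 : ZMod m) ≠ 0 := by simpa using cast_ne m 2 (by norm_num) (by omega)
  have h3 : (3 : ZMod m) ≠ 0 := by simpa using cast_ne m 3 (by norm_num) (by omega)
  refine ⟨⟨fun v => ?_, fun h => (h.false 0).elim⟩, fun v => areg_zero _ _ ?_⟩
  · have : (cyc m).neighborSet v = {v + 1, v - 1} := by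
      ext w
      simp only [SimpleGraph.mem_neighborSet, Set.mem_insert_iff, Set.mem_singleton_iff]
      constructor
      · rintro ⟨_, h | h⟩
        · left; exact h
        · right; rw [h]; ring
      · rintro (h | h)
        · refine ⟨?_, Or.inl h⟩
          rw [h]; intro e; exact h1 (by linear_combination -e)
        · refine ⟨?_, Or.inr (by rw [h]; ring)⟩
          rw [h]; intro e; exact h1 (by linear_combination e)
    rw [this, Set.ncard_pair]
    intro e
    exact h2 (by linear_combination e)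
  · rintro ⟨a, ha⟩ ⟨b, hb⟩ hab
    rw [sphereSet_singleton] at ha hb
    have hab' : (cyc m).Adj a b := hab
    obtain ⟨_, ha⟩ := ha
    obtain ⟨_, hb⟩ := hb
    obtain ⟨_, hab'⟩ := hab'
    rcases ha with ha | ha <;> rcases hb with hb | hb <;> rcases hab' with h | h <;>
    first
    | exact h1 (by linear_combination ha + hb + h)
    | exact h1 (by linear_combination ha + hb - h)
    | exact h1 (by linear_combination ha - hb + h)
    | exact h1 (by linear_combination ha - hb - h)
    | exact h1 (by linear_combination - ha + hb + h)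
    | exact h1 (by linear_combination - ha + hb - h)
    | exact h1 (by linear_combination - ha - hb + h)
    | exact h1 (by linear_combination - ha - hb - h)
    | exact h3 (by linear_combination ha + hb + h)
    | exact h3 (by linear_combination ha + hb - h)
    | exact h3 (by linear_combination ha - hb + h)
    | exact h3 (by linear_combination ha - hb - h)
    | exact h3 (by linear_combination - ha + hb + h)
    | exact h3 (by linear_combination - ha + hb - h)
    | exact h3 (by linear_combination - ha - hb + h)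
    | exact h3 (by linear_combination - ha - hb - h)

theorem cyc_connected (m : ℕ) (hm : 2 ≤ m) : (cyc m).Connected := by
  have h1 : (1 : ZMod m) ≠ 0 := by simpa using cast_ne m 1 (by norm_num) (by omega)
  haveI : NeZero m := ⟨by omega⟩
  have hr : ∀ k : ℕ, (cyc m).Reachable 0 (k : ZMod m) := by
    intro k
    induction k with
    | zero => rw [Nat.cast_zero]
    | succ k ih =>
      refine ih.trans (SimpleGraph.Adj.reachable ?_)
      refine ⟨?_, Or.inl (by push_cast; ring)⟩
      intro e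
      push_cast at e
      exact h1 (by linear_combination -e)
  have hr' : ∀ x : ZMod m, (cyc m).Reachable 0 x := by
    intro x
    have := hr x.val
    rwa [ZMod.natCast_zmod_val] at this
  haveI : Nonempty (ZMod m) := ⟨0⟩
  exact ⟨fun x y => (hr' x).symm.trans (hr' y)⟩

theorem two0_mem_HRinf (n : ℕ) (hn : 1 ≤ n) : two0 n ∈ HRinf n := by
  refine ⟨two0_length n hn, fun i => ⟨ZMod (i + 4), inferInstance, cyc (i + 4)⟩, ?_,
    fun i => ⟨cyc_connected _ (by omega), cyc_areg _ (by omega) n⟩⟩
  intro i j hij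
  refine ⟨fun e => hij ?_⟩
  have h : Nat.card (ZMod (i + 4)) = Nat.card (ZMod (j + 4)) := Nat.card_congr e.toEquiv
  rw [Nat.card_zmod, Nat.card_zmod] at h
  omega

theorem two0_not_HRC (n : ℕ) (hn : 2 ≤ n) : two0 n ∉ HRC n := by
  rintro ⟨hlen, X, hc, ha, hs⟩
  haveI := X.fin
  obtain ⟨v⟩ := hc.nonempty
  have hcon := hs {v} (by simp) (by rw [Set.ncard_singleton, hlen]; omega)
  obtain ⟨k, rfl⟩ : ∃ k, n = k + 2 := ⟨n - 2, by omega⟩
  have hd : (X.G.neighborSet v).ncard = 2 := ha.1.1 v
  have h0' : AReg (0 :: List.replicate k 0) (Sphere X.G {v}) := ha.2 v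
  have h0 : ∀ w, ((Sphere X.G {v}).neighborSet w).ncard = 0 := h0'.1.1
  rw [← sphereSet_singleton] at hd
  obtain ⟨x, y, hxy, hS⟩ := Set.ncard_eq_two.1 hd
  have hx : x ∈ sphereSet X.G {v} := by rw [hS]; simp
  have hy : y ∈ sphereSet X.G {v} := by rw [hS]; simp
  obtain ⟨p⟩ := hcon.preconnected ⟨x, hx⟩ ⟨y, hy⟩
  cases p with
  | nil => exact hxy rfl
  | @cons _ b _ hab p =>
    have h1 := h0 ⟨x, hx⟩
    rw [Set.ncard_eq_zero (Set.toFinite _)] at h1
    have h2 : b ∈ (Sphere X.G {v}).neighborSet ⟨x, hx⟩ := hab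
    rw [h1] at h2
    exact h2

/-! ### Cycles do not expand -/

theorem greedy {V : Type} [Finite V] (G : SimpleGraph V) (hc : G.Connected)
    (hd : ∀ v, (G.neighborSet v).ncard = 2) :
    ∀ k, 1 ≤ k → k ≤ Nat.card V → ∃ S : Set V, S.ncard = k ∧ (bd G S).ncard ≤ 2 := by
  intro k hk
  induction k, hk using Nat.le_induction with
  | base =>
    intro _
    obtain ⟨v⟩ := hc.nonempty
    refine ⟨{v}, Set.ncard_singleton v, ?_⟩
    have : bd G {v} ⊆ (fun w => (v, w)) '' (G.neighborSet v) := by
      rintro ⟨a, b⟩ ⟨h1, _, h3⟩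
      have h1' : a = v := h1
      subst h1'
      exact ⟨b, h3, rfl⟩
    calc (bd G {v}).ncard ≤ ((fun w => (v, w)) '' (G.neighborSet v)).ncard :=
          Set.ncard_le_ncard this (Set.toFinite _)
      _ ≤ (G.neighborSet v).ncard := Set.ncard_image_le (Set.toFinite _)
      _ = 2 := hd v
      _ ≤ 2 := le_rfl
  | succ k hk ih =>
    intro hk2
    obtain ⟨S, hS, hb⟩ := ih (by omega)
    have hne : S.Nonempty := by
      apply Set.nonempty_of_ncard_ne_zero
      omega
    have hne2 : ∃ y, y ∉ S := by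
      by_contra hcon
      push_neg at hcon
      have : S = Set.univ := Set.eq_univ_of_forall hcon
      rw [this, Set.ncard_univ] at hS
      omega
    obtain ⟨x, hx⟩ := hne
    obtain ⟨y, hy⟩ := hne2
    obtain ⟨p⟩ := hc.preconnected x y
    obtain ⟨⟨⟨u, w⟩, hadj⟩, _, hd1, hd2⟩ := p.exists_boundary_dart S hx hy
    simp only at hd1 hd2 hadj
    refine ⟨insert w S, ?_, ?_⟩
    · rw [Set.ncard_insert_of_notMem hd2, hS]
    · have hsub : bd G (insert w S) ⊆
          (bd G S \ {(u, w)}) ∪ (fun z => (w, z)) '' (G.neighborSet w \ {u}) := by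
        rintro ⟨a, b⟩ ⟨h1, h2, h3⟩
        simp only at h1 h2 h3
        rcases h1 with h1 | h1
        · right
          subst h1
          refine ⟨b, ⟨h3, ?_⟩, rfl⟩
          intro e
          have e' : b = u := e
          rw [e'] at h2
          exact h2 (Or.inr hd1)
        · left
          refine ⟨⟨h1, fun hb => h2 (Or.inr hb), h3⟩, ?_⟩
          intro e
          have e' : b = w := congrArg Prod.snd e
          rw [e'] at h2
          exact h2 (Or.inl rfl)
      have hmem : (u, w) ∈ bd G S := ⟨hd1, hd2, hadj⟩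
      have hmem2 : u ∈ G.neighborSet w := SimpleGraph.Adj.symm hadj
      have c1 := Set.ncard_diff_singleton_of_mem hmem
      have c2 := Set.ncard_diff_singleton_of_mem hmem2
      have c3 := hd w
      calc (bd G (insert w S)).ncard
          ≤ ((bd G S \ {(u, w)}) ∪ (fun z => (w, z)) '' (G.neighborSet w \ {u})).ncard :=
            Set.ncard_le_ncard hsub (Set.toFinite _)
        _ ≤ (bd G S \ {(u, w)}).ncard + ((fun z => (w, z)) '' (G.neighborSet w \ {u})).ncard :=
            Set.ncard_union_le _ _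
        _ ≤ (bd G S \ {(u, w)}).ncard + (G.neighborSet w \ {u}).ncard :=
            Nat.add_le_add_left (Set.ncard_image_le (Set.toFinite _)) _
        _ ≤ 2 := by omega

theorem unbounded (X : ℕ → FinGraph) (hX : NonIso X) (N : ℕ) : ∃ i, N < Nat.card (X i).V := by
  by_contra hcon
  push_neg at hcon
  have h : ∀ i, ∃ z : (Σ m : Fin (N + 1), SimpleGraph (Fin m)), Nonempty ((X i).G ≃g z.2) := by
    intro i
    haveI := (X i).fin
    let e := Finite.equivFin (X i).V
    refine ⟨⟨⟨Nat.card (X i).V, by have := hcon i; omega⟩, (X i).G.map e.toEmbedding⟩,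
      ⟨SimpleGraph.Iso.map e (X i).G⟩⟩
  choose f hf using h
  obtain ⟨i, j, hij, he⟩ := Finite.exists_ne_map_eq_of_infinite f
  obtain ⟨a⟩ := hf i
  obtain ⟨b⟩ := hf j
  rw [he] at a
  exact (hX i j hij).false (a.trans b.symm)

theorem two0_not_HRexp (n : ℕ) : two0 n ∉ HRexp n := by
  rintro ⟨_, X, hX, ε, hε, h⟩
  obtain ⟨N, hN⟩ := exists_nat_gt (2 / ε)
  obtain ⟨i, hi⟩ := unbounded X hX (2 * N + 2)
  haveI := (X i).fin
  obtain ⟨hc, ha, hch⟩ := h i
  obtain ⟨S, hS, hb⟩ := greedy (X i).G hc ha.1.1 (Nat.card (X i).V / 2) (by omega) (by omega)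
  have hcompl := Set.ncard_add_ncard_compl S
  have h1 := hch S (Set.nonempty_of_ncard_ne_zero (by omega))
    (Set.nonempty_of_ncard_ne_zero (by omega))
  have h2 : (N : ℝ) ≤ min (S.ncard : ℝ) (Sᶜ.ncard : ℝ) := by
    apply le_min
    · exact_mod_cast (by omega : N ≤ S.ncard)
    · exact_mod_cast (by omega : N ≤ Sᶜ.ncard)
  have h3 : ((bd (X i).G S).ncard : ℝ) ≤ 2 := by exact_mod_cast hb
  have h4 : ε * N ≤ ε * min (S.ncard : ℝ) (Sᶜ.ncard : ℝ) := mul_le_mul_of_nonneg_left h2 hε.le
  rw [div_lt_iff₀ hε] at hN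
  nlinarith

/-! ### The trivial inclusions -/

theorem HRC_sub (n : ℕ) : HRC n ⊆ HR n := by
  rintro a ⟨h, X, hc, ha⟩
  exact ⟨h, X, hc, ha.1⟩

theorem HRCinf_sub (n : ℕ) : HRCinf n ⊆ HRinf n := by
  rintro a ⟨h, X, hX, ha⟩
  exact ⟨h, X, hX, fun i => ⟨(ha i).1, (ha i).2.1⟩⟩

theorem HRCinf_sub_HRC (n : ℕ) : HRCinf n ⊆ HRC n := by
  rintro a ⟨h, X, hX, ha⟩
  exact ⟨h, X 0, ha 0⟩

theorem HRinf_sub_HR (n : ℕ) : HRinf n ⊆ HR n := by
  rintro a ⟨h, X, hX, ha⟩
  exact ⟨h, X 0, ha 0⟩

theorem HRexp_sub_HRinf (n : ℕ) : HRexp n ⊆ HRinf n := by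
  rintro a ⟨h, X, hX, ε, _, ha⟩
  exact ⟨h, X, hX, fun i => ⟨(ha i).1, (ha i).2.1⟩⟩

/-- **Five of the seven inclusions are strict for every `n ≥ 2`.** -/
theorem result (n : ℕ) (hn : 2 ≤ n) :
    HRCinf n ⊂ HRC n ∧ HRinf n ⊂ HR n ∧ HRexp n ⊂ HRinf n ∧ HRC n ⊂ HR n ∧
      HRCinf n ⊂ HRinf n := by
  obtain ⟨k, rfl⟩ : ∃ k, n = k + 1 := ⟨n - 1, by omega⟩
  have hm := desc_mem_HRC k
  have hni := desc_not_inf k
  have hz := two0_mem_HRinf (k + 1) (by omega)
  have hzC := two0_not_HRC (k + 1) hn
  have hzE := two0_not_HRexp (k + 1)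
  refine ⟨?_, ?_, ?_, ?_, ?_⟩
  · exact ⟨HRCinf_sub_HRC _, fun h => hni (HRCinf_sub _ (h hm))⟩
  · exact ⟨HRinf_sub_HR _, fun h => hni (h (HRC_sub _ hm))⟩
  · exact ⟨HRexp_sub_HRinf _, fun h => hzE (h hz)⟩
  · exact ⟨HRC_sub _, fun h => hzC (h (HRinf_sub_HR _ hz))⟩
  · exact ⟨HRCinf_sub _, fun h => hzC (HRCinf_sub_HRC _ (h hz))⟩

end Pool.Agent.Results.MP_21018d_co.StrictInclusions
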